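import Pool.Agent.Lib.MP_5c318e_ag.Gr.Atlas
import Pool.Agent.Lib.MP_5c318e_ag.S.BVal

/-! Derivations that are regular on the frame coordinates preserve the primes of an atlas; fake
primes. -/

set_option autoImplicit false
set_option linter.unusedSectionVars false

namespace Pool.Agent.Lib.MP_5c318e_ag

open Set

section one

variable {k F ι : Type} [Field k] [Field F] [Algebra k F] [Fintype ι] [DecidableEq ι]
  {d : ι → Derivation k F F}

/-- Cramer's rule for the dual frame -/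
theorem Dv.jac_update {f : ι → F} (hf : Jac d f ≠ 0) (j : ι) (a : F) :
    Jac d (Function.update f j a) = Jac d f * dual d f j a := by
  rw [jac_chain d hf]
  congr 1
  have : (Matrix.of fun x b => dual d f b (Function.update f j a x)) =
      (1 : Matrix ι ι F).updateRow j fun b => dual d f b a := by
    ext x b
    rcases eq_or_ne x j with rfl | h
    · simp
    · rw [Matrix.of_apply, Function.update_of_ne h, Matrix.updateRow_ne h, dual_self d hf,
        Matrix.one_apply]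
  rw [Jac, this, ← Matrix.cramer_transpose_apply, Matrix.transpose_one, Matrix.cramer_one]
  rfl

/-- a derivation that is regular on a generating family preserves the valuation ring -/
theorem Adp.der_mem_of_jac [CharZero k] {O : ValuationSubring F} {c : ι → F} {i0 : ι}
    (h : Adp k O c i0) (hc : Jac d c ≠ 0) {f : ι → F} (hf : ∀ j, f j ∈ O)
    (hJ : O.valuation (Jac d c) ≤ O.valuation (Jac d f)) (e : Derivation k F F)
    (he : ∀ j, e (f j) ∈ O) {a : F} (ha : a ∈ O) : e a ∈ O := by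
  have : CharZero F := charZero_of_injective_algebraMap (algebraMap k F).injective
  have p : 0 < O.valuation (Jac d f) := ((Valuation.pos_iff _).2 hc).trans_le hJ
  have h0 : Jac d f ≠ 0 := (Valuation.pos_iff _).1 p
  rw [der_eq_sum_dual (k0 := kR k F) d (fun j => der_kR _) h0 e (der_kR _)
    (alg_of_jac d (fun j => der_kR _) hc h0 (fun _ => alg_of_basis h.basis _)
      (alg_of_basis h.basis a))]
  refine sum_mem fun j _ => mul_mem ?_ (he j)
  have h1 := (h.jac_le d (f := Function.update f j a) fun l => by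
    rcases eq_or_ne l j with rfl | hl
    · rwa [Function.update_self]
    · rw [Function.update_of_ne hl]; exact hf l).trans hJ
  rw [Dv.jac_update h0, map_mul] at h1
  exact (O.valuation_le_one_iff _).1 ((mul_le_iff_le_one_right p).1 h1)

theorem Dv.exists_pow {O : ValuationSubring F} (hO : IsDivisorial k F O) {u : F} (u0 : u ≠ 0)
    (hu : O.valuation u < 1) (h : F) : ∃ n : ℕ, h * u ^ n ∈ O := by
  have := hO.1
  rcases eq_or_ne h 0 with rfl | h0
  · exact ⟨0, by simp⟩
  obtain ⟨t, t0, ht, hg⟩ := exists_unif O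
  have hp : 0 < O.valuation t := (Valuation.pos_iff _).2 t0
  obtain ⟨a, ha⟩ := hg u u0
  obtain ⟨n, hn⟩ := hg h h0
  rw [ha] at hu
  have a0 := (zpow_lt_one_iff_right_of_lt_one₀ hp ht).1 hu
  refine ⟨n.natAbs, ?_⟩
  rw [← O.valuation_le_one_iff, map_mul, map_pow, ha, hn, ← zpow_natCast, ← zpow_mul,
    ← zpow_add₀ hp.ne']
  refine zpow_le_one₀ hp ht.le ?_
  have : -n ≤ (n.natAbs : ℤ) := by omega
  nlinarith [Int.natCast_nonneg n.natAbs]

namespace Atl

variable (Q : Atl d)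

/-- the generator of the top forms on the chart `i` -/
noncomputable def J (i : Fin Q.N) : F := Jac d (Q.f i)

theorem J_ne (i : Fin Q.N) : Q.J i ≠ 0 := Q.ne i

/-- FAKE primes: primes of the atlas at which one of the forms `τ l` of weight `m` is a generator -/
def Fake {ρ : Type} (m : ℕ) (τ : ρ → F) (O : ValuationSubring F) : Prop :=
  ∃ i, O ∈ Q.Pr i ∧ ∃ l, O.valuation (τ l) = O.valuation (Q.J i) ^ m

variable {Q}

theorem J_eq {i j : Fin Q.N} {O : ValuationSubring F} (hi : O ∈ Q.Pr i) (hj : O ∈ Q.Pr j) :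
    O.valuation (Q.J i) = O.valuation (Q.J j) := by
  have key : ∀ {i j : Fin Q.N}, O ∈ Q.Pr i → O ∈ Q.Pr j →
      O.valuation (Q.J i) ≤ O.valuation (Q.J j) := fun {i j} hi hj => by
    have := (div_pow_mem_iff (Q.ne j)).1 ((Q.regI j O hj 1 (Q.J i)).1
      ⟨Q.f i, fun l => Q.le i O hi _ (Q.mem i l), 1, one_mem _, by simp [J]⟩)
    rwa [pow_one] at this
  exact le_antisymm (key hi hj) (key hj hi)

theorem Fake.primes {ρ : Type} {m : ℕ} {τ : ρ → F} {O : ValuationSubring F} (h : Q.Fake m τ O) :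
    O ∈ Q.primes := let ⟨i, hi, _⟩ := h; mem_iUnion.2 ⟨i, hi⟩

theorem Fake.at {ρ : Type} {m : ℕ} {τ : ρ → F} {O : ValuationSubring F} (h : Q.Fake m τ O)
    {i : Fin Q.N} (hi : O ∈ Q.Pr i) : ∃ l, O.valuation (τ l) = O.valuation (Q.J i) ^ m := by
  obtain ⟨j, hj, l, e⟩ := h
  exact ⟨l, by rw [e, J_eq hj hi]⟩

/-- KRULL: if `σ` generates at `D`, only the primes at which `σ` generates matter -/
theorem krull {m : ℕ} {σ : F} (hσ : Plu d m σ) {i : Fin Q.N} {D : ValuationSubring F}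
    (hA : ∀ a ∈ Q.A i, a ∈ D) (hu : D.valuation σ = D.valuation (Q.J i) ^ m) {h : F}
    (hh : ∀ O ∈ Q.Pr i, O.valuation σ = O.valuation (Q.J i) ^ m → h ∈ O) : h ∈ D := by
  classical
  have J0 : ∀ O : ValuationSubring F, 0 < O.valuation (Q.J i) ^ m := fun O =>
    pow_pos ((Valuation.pos_iff _).2 (Q.J_ne i)) m
  have uA : σ / Q.J i ^ m ∈ Q.A i := Q.reg i m σ hσ
  have uv : ∀ O : ValuationSubring F, O.valuation (σ / Q.J i ^ m) = 1 ↔
      O.valuation σ = O.valuation (Q.J i) ^ m := fun O => by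
    rw [map_div₀, map_pow, div_eq_one_iff_eq (J0 O).ne']
  have u1 := (uv D).2 hu
  have u0 : σ / Q.J i ^ m ≠ 0 := fun e => by simp [e] at u1
  have : ∀ O : ValuationSubring F, ∃ n : ℕ, O ∈ Q.Pr i → h * (σ / Q.J i ^ m) ^ n ∈ O := fun O => by
    by_cases hO : O ∈ Q.Pr i
    · by_cases e : O.valuation (σ / Q.J i ^ m) = 1
      · exact ⟨0, fun _ => by simpa using hh O hO ((uv O).1 e)⟩
      · exact (Dv.exists_pow (Q.div i O hO) u0 (lt_of_le_of_ne
          ((O.valuation_le_one_iff _).2 (Q.le i O hO _ uA)) e) h).imp fun _ hn _ => hn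
    · exact ⟨0, fun h => absurd h hO⟩
  choose n hn using this
  obtain ⟨N, hN⟩ := ((Q.fin i h).image n).bddAbove
  have key : h * (σ / Q.J i ^ m) ^ N ∈ Q.A i := Q.pure i _ fun O hO => by
    by_cases e : h ∈ O
    · exact mul_mem e (pow_mem (Q.le i O hO _ uA) N)
    · obtain ⟨r, hr⟩ := Nat.exists_eq_add_of_le (hN ⟨O, ⟨hO, e⟩, rfl⟩)
      rw [hr, pow_add, ← mul_assoc]
      exact mul_mem (hn O hO) (pow_mem (Q.le i O hO _ uA) r)
  have := (D.valuation_le_one_iff _).2 (hA _ key)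
  rw [map_mul, map_pow, u1, one_pow, mul_one] at this
  exact (D.valuation_le_one_iff _).1 this

/-- KRULL for the fake primes -/
theorem krull_fake {ρ : Type} {m : ℕ} {τ : ρ → F} (hτ : ∀ l, Plu d m (τ l)) {i : Fin Q.N}
    {D : ValuationSubring F} (hA : ∀ a ∈ Q.A i, a ∈ D) {l : ρ}
    (hu : D.valuation (τ l) = D.valuation (Q.J i) ^ m) {h : F}
    (hh : ∀ O ∈ Q.Pr i, Q.Fake m τ O → h ∈ O) : h ∈ D :=
  krull (hτ l) hA hu fun O hO e => hh O hO ⟨i, hO, l, e⟩

/-- only finitely many primes are not fake -/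
theorem finite_real {ρ : Type} {m : ℕ} {τ : ρ → F} (hτ : ∀ l, Plu d m (τ l)) {l : ρ}
    (h0 : τ l ≠ 0) : {O ∈ Q.primes | ¬ Q.Fake m τ O}.Finite := by
  refine (finite_iUnion fun i => Q.fin i (Q.J i ^ m / τ l)).subset fun O hO => ?_
  obtain ⟨i, hi⟩ := mem_iUnion.1 hO.1
  refine mem_iUnion.2 ⟨i, hi, fun e => hO.2 ⟨i, hi, l, le_antisymm
    ((div_pow_mem_iff (Q.ne i)).1 (Q.le i O hi _ (Q.reg i m _ (hτ l)))) ?_⟩⟩
  rwa [← O.valuation_le_one_iff, map_div₀, div_le_one₀ ((Valuation.pos_iff _).2 h0), map_pow] at e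

end Atl

end one

section rel

variable {δ ν K M : Type} [Fintype δ] [DecidableEq δ] [Fintype ν] [DecidableEq ν]
  [Field K] [Algebra ℂ K] [Field M] [Algebra ℂ M] [Algebra K M] [IsScalarTower ℂ K M]
  {y : δ → K} {x : ν → M} {dx : ν → Derivation K M M}

/-- a derivation over `ℂ` that is regular on the coordinates of the base and on a generating family
preserves a horizontal prime divisor -/
theorem Dv.der_mem (hy : IsTranscendenceBasis ℂ y) (hx : Dual K x dx) {O : ValuationSubring M}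
    (hO : IsDivisorial K M O) {f : ν → M} (hf : ∀ j, f j ∈ O)
    (hJ : ∀ g : ν → M, (∀ j, g j ∈ O) → O.valuation (Jac dx g) ≤ O.valuation (Jac dx f))
    (e : Derivation ℂ M M) (h1 : ∀ i, e (algebraMap K M (y i)) ∈ O) (h2 : ∀ j, e (f j) ∈ O)
    {a : M} (ha : a ∈ O) : e a ∈ O := by
  have : CharZero K := charZero_of_injective_algebraMap (algebraMap ℂ K).injective
  obtain ⟨c, i0, hc⟩ := hO.exists_adp (trdeg_of_basis hx.basis)
  obtain ⟨dK, hK⟩ := Dual.exists hy
  obtain ⟨dM, hM⟩ := Dual.exists (basis_sum hy hx.basis)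
  have e1 : ∀ g, Jac dM (Sum.elim (fun i => algebraMap K M (y i)) g) = Jac dx g := fun g => by
    rw [hK.jac_split hx hM, hK.jac_one, map_one, one_mul]
  refine (hc.horiz hy).der_mem_of_jac (d := dM) (f := Sum.elim (fun i => algebraMap K M (y i)) f)
    ((e1 c).trans_ne (hx.isFr.jac_ne hc.basis.1)) ?_ ?_ e ?_ ha
  · rintro (i | j)
    exacts [hO.const _, hf j]
  · exact (congrArg _ (e1 c)).trans_le ((hJ c hc.mem).trans_eq (congrArg _ (e1 f)).symm)
  · rintro (i | j)
    exacts [h1 i, h2 j]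

namespace Atl

variable {Q : Atl dx}

theorem der_mem (hy : IsTranscendenceBasis ℂ y) (hx : Dual K x dx) {i : Fin Q.N}
    {O : ValuationSubring M} (hO : O ∈ Q.Pr i) (e : Derivation ℂ M M)
    (h1 : ∀ j, e (algebraMap K M (y j)) ∈ O) (h2 : ∀ j, e (Q.f i j) ∈ O) {a : M} (ha : a ∈ O) :
    e a ∈ O :=
  Dv.der_mem hy hx (Q.div i O hO) (fun j => Q.le i O hO _ (Q.mem i j)) (fun g hg => by
    simpa using (div_pow_mem_iff (Q.ne i)).1
      ((Q.regI i O hO 1 (Jac dx g)).1 ⟨g, hg, 1, one_mem _, by simp⟩)) e h1 h2 ha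

/-- a twisted field that is regular on the coordinates is regular -/
theorem der_regI (hy : IsTranscendenceBasis ℂ y) (hx : Dual K x dx) {i : Fin Q.N}
    {O : ValuationSubring M} (hO : O ∈ Q.Pr i) {m : ℕ} (V : Derivation ℂ M M)
    (h1 : ∀ j, RegI dx m (V (algebraMap K M (y j))) O) (h2 : ∀ j, RegI dx m (V (Q.f i j)) O)
    {a : M} (ha : a ∈ O) : V a / Q.J i ^ m ∈ O := by
  have e : ∀ a, ((Q.J i ^ m)⁻¹ • V) a = V a / Q.J i ^ m := fun a => by
    rw [Derivation.smul_apply, smul_eq_mul, div_eq_inv_mul]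
  rw [← e]
  exact der_mem hy hx hO _ (fun j => e _ ▸ (Q.regI i O hO m _).1 (h1 j))
    (fun j => e _ ▸ (Q.regI i O hO m _).1 (h2 j)) ha

/-- FAKE, algebraic form: `τ l • v` regular for every `l` -/
theorem Fake.der_mem (hy : IsTranscendenceBasis ℂ y) (hx : Dual K x dx) {ρ : Type} {m : ℕ}
    {τ : ρ → M} {O : ValuationSubring M} (hO : Q.Fake m τ O) (v : Derivation ℂ M M)
    (h1 : ∀ j, v (algebraMap K M (y j)) ∈ O)
    (h2 : ∀ l i j, O ∈ Q.Pr i → RegI dx m (τ l * v (Q.f i j)) O) {a : M} (ha : a ∈ O) :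
    v a ∈ O := by
  obtain ⟨i, hi, l, e⟩ := hO
  refine Atl.der_mem hy hx hi v h1 (fun j => ?_) ha
  have := (div_pow_mem_iff (Q.ne i)).1 ((Q.regI i O hi m _).1 (h2 l i j hi))
  rw [map_mul, e] at this
  exact (O.valuation_le_one_iff _).1
    ((mul_le_iff_le_one_right (pow_pos ((Valuation.pos_iff _).2 (Q.ne i)) m)).1 this)

end Atl

end rel

end Pool.Agent.Lib.MP_5c318e_ag
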