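import Pool.Agent.Lib.MP_5c318e_ag.Dv.Alg
import Pool.Agent.Lib.MP_5c318e_ag.S.SatG
import Pool.Agent.Lib.MP_5c318e_ag.Me.Lsq
import Pool.Agent.Lib.MP_5c318e_ag.Dm.Fr2
import Pool.Agent.Lib.MP_5c318e_ag.Ar.Wt

/-! A square integrable rational vector field preserves the fake primes. -/

set_option autoImplicit false
set_option linter.unusedSectionVars false

namespace Pool.Agent.Lib.MP_5c318e_ag

open MeasureTheory Set Filter Topology

variable {δ ν K M : Type} [Fintype δ] [DecidableEq δ] [Fintype ν] [DecidableEq ν]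
  [Field K] [Algebra ℂ K] [Field M] [Algebra ℂ M] [Algebra K M] [IsScalarTower ℂ K M]

/-- total and relative regularity of top forms at a horizontal prime divisor -/
theorem Rel.regI_horiz {B : Cht δ K} (T : Rel B ν M) {O : ValuationSubring M}
    (hO : IsDivisorial K M O) {m : ℕ} {φ : M} (h : RegI T.X.der m φ O) : RegI T.dx m φ O := by
  have : CharZero K := charZero_of_injective_algebraMap (algebraMap ℂ K).injective
  obtain ⟨c, i0, hc⟩ := hO.exists_adp (trdeg_of_basis T.dual.basis)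
  have hM : Dual ℂ (Sum.elim (fun i => algebraMap K M (B.z i)) T.x) T.X.der := by
    convert T.X.dual using 1
    ext (i | i)
    exacts [(T.zy_coe i).symm, rfl]
  have h1 := h.le_adp (hc.horiz B.basis)
  have e := B.dual.jac_split T.dual hM (fun i => (B.z i : K)) c
  rw [B.dual.jac_one, map_one, one_mul] at e
  exact (hc.regI_iff m φ).2 (h1.trans_eq (congrArg (fun x => O.valuation x ^ m) e))

/-- square integrable functions for the density `|σ| ^ (2 / m)` have no pole at a horizontal prime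
divisor at which `σ` generates -/
theorem Rel.mem_of_sq {B : Cht δ K} (T : Rel B ν M) {O : ValuationSubring M}
    (hO : IsDivisorial K M O) {J σ φ : M} (J0 : J ≠ 0) (hJ : ∀ ψ, RegI T.dx 1 ψ O → ψ / J ∈ O)
    {m : ℕ} (hm : 0 < m) (hσ : O.valuation (σ / J ^ m) = 1) {κ : Type} [Fintype κ] {a : κ → M}
    (ha : ∀ j, a j ∈ O) (N : ℕ) {G : Pt T.X.O → ℝ} (hi : Integrable G T.X.D.μ)
    (hle : ∀ᵐ p ∂T.X.D.μ,
      ‖p.ev φ‖ ^ 2 * (‖p.ev σ‖ ^ 2) ^ (1 / m : ℝ) ≤ (1 + ∑ j, ‖p.ev (a j)‖ ^ 2) ^ N * G p) :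
    φ ∈ O := by
  have σ0 : σ ≠ 0 := fun e => by simp [e] at hσ
  have hu : J ^ m / σ ∈ O := by
    rw [← O.valuation_le_one_iff, ← inv_div, map_inv₀, hσ, inv_one]
  have key := T.regI_horiz hO (T.X.regI_of_l2 (φ := φ) (γ := J) (W := fun e => ENNReal.ofReal
    ((‖e σ‖ ^ 2) ^ (1 / m : ℝ) / (1 + ∑ j, ‖e (a j)‖ ^ 2) ^ N)) (by fun_prop)
    ((divisorial_iff_of_le B.basis T.dual.basis hO.const).2 hO) ?_ ?_)
  · simpa only [mul_div_cancel_right₀ _ J0] using hJ _ key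
  · refine (((Up.sq hu).rpow (c := 1 / m) (by positivity)).mul
      (((Up.const ENNReal.one_ne_top).add (Up.sos ha)).pow N)).mono ?_
    filter_upwards [gnr.ne σ0, gnr.div (J ^ m) σ, gnr.pow J m] with e h1 h2 h3
    have p : 0 < (‖e σ‖ ^ 2) ^ (1 / m : ℝ) := Real.rpow_pos_of_pos (by positivity) _
    rw [← ENNReal.ofReal_div_of_pos (by positivity), ENNReal.ofReal_rpow_of_nonneg (by positivity)
      (by positivity), ← ENNReal.ofReal_one, ← ENNReal.ofReal_add zero_le_one (by positivity),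
      ← ENNReal.ofReal_pow (by positivity), ← ENNReal.ofReal_mul (by positivity), h2, h3,
      norm_div, div_pow, Real.div_rpow (by positivity) (by positivity), norm_pow, ← pow_mul,
      mul_comm m 2, pow_mul, one_div, Real.pow_rpow_inv_natCast (by positivity) hm.ne',
      div_div_eq_mul_div, div_mul_eq_mul_div]
  · refine lt_of_le_of_lt (lintegral_mono_ae (hle.mono fun p hp => ?_)) hi.lintegral_lt_top
    rw [← ENNReal.ofReal_mul (by positivity)]
    refine ENNReal.ofReal_le_ofReal ?_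
    rwa [mul_div_assoc', div_le_iff₀' (by positivity)]

/-- visibility of one function -/
theorem RD.vis_one {ι S : Type} [Fintype ι] [DecidableEq ι] [TopologicalSpace S] [MeasurableSpace S]
    [BorelSpace S] [T2Space S] [SigmaCompactSpace S] {D : RD ι S} {a : S → ℂ} (ha : D.Hol a)
    (x : S) (ξ : ι → ℂ) : ‖D.fd a x ξ‖ ^ 2 ≤
      (1 + ‖a x‖ ^ 2) ^ 2 * D.levi (fun x => Real.log (1 + ‖a x‖ ^ 2)) x ξ := by
  have := RD.lsq_vis (D := D) (Z := fun o : Option Unit => o.elim (fun _ => 1) fun _ => a)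
    (fun o => by
      cases o
      exacts [fun _ => differentiableAt_const _, ha]) (x := x)
    (by simp only [Fintype.sum_option]; simp; positivity) ξ none (some ())
  simpa [Fintype.sum_option, RD.fd] using this

namespace Dat

variable {d : Dat δ K ν M}

/-- FAKE: a derivation that is regular on the base and whose values on the frame coordinates are
square integrable for `B ^ (1 / m)` preserves the fake primes -/
theorem fk_of_sq (Fr : Frames2 d.T.dx) (vt : Derivation ℂ M M) {i : Fin Fr.N}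
    {O : ValuationSubring M} (hO : Fr.Fk (fun l => (d.τ l : M)) d.m i O)
    (ht : ∀ j, vt (algebraMap K M (d.B.z j)) ∈ O) {q : Pt d.T.X.O → ℝ} (q0 : ∀ p, 0 ≤ q p)
    (hi : Integrable (fun p => q p * d.Bs p ^ (1 / d.m : ℝ)) d.T.X.D.μ)
    (hq : ∀ l, ∀ᵐ p ∂d.T.X.D.μ,
      ‖p.ev (vt (Fr.f i l))‖ ^ 2 ≤ (1 + ‖p.ev (Fr.f i l)‖ ^ 2) ^ 2 * q p) {a : M} (ha : a ∈ O) :
    vt a ∈ O := by
  have : CharZero K := charZero_of_injective_algebraMap (algebraMap ℂ K).injective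
  obtain ⟨hi0, j, hj⟩ := hO
  have hf := fun l => (Fr.pr i).le O hi0 _ (Fr.mem i l)
  refine Dv.der_mem d.B.basis d.T.dual ((Fr.pr i).div hi0) hf (fun g hg => by
    simpa using ((Fr.pr i).regI_val hi0 1 (Jac d.T.dx g)).1 ⟨g, hg, 1, one_mem _, by simp⟩)
    vt ht (fun l => ?_) ha
  refine d.T.mem_of_sq ((Fr.pr i).div hi0) (Fr.ne i) (fun ψ h => by
    simpa using ((Fr.pr i).regI_iff (Fr.ne i) hi0 1 ψ).1 h) (by have := d.hm; omega) hj
    (a := fun _ : Unit => Fr.f i l) (fun _ => hf l) 2 hi ((hq l).mono fun p hp => ?_)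
  rw [← mul_assoc, Fintype.sum_unique, Pt.ev_coe]
  exact mul_le_mul hp (Real.rpow_le_rpow (by positivity) (d.le_Bs j p) (by positivity))
    (by positivity) (mul_nonneg (by positivity) (q0 p))

/-- FAKE for a field that is square integrable for a metric that sees the frame coordinates -/
theorem fk_stable (Fr : Frames2 d.T.dx) (hf : ∀ i l, Fr.f i l ∈ d.T.X.O) {Φ : Pt d.T.X.O → ℝ}
    (hΦ : d.T.X.D.Psh Φ) (vis : ∀ i l p ξ, d.T.X.D.levi
      (fun p => Real.log (1 + ‖p.ev (Fr.f i l)‖ ^ 2)) p ξ ≤ d.T.X.D.levi Φ p ξ)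
    {v : Pt d.T.X.O → δ ⊕ ν → ℂ} {vt : Derivation ℂ M M}
    (hv : ∀ (a : d.T.X.O) (p : Pt d.T.X.O), d.T.X.D.vd v (fun q => q a) p = p.ev (vt a))
    (ht : ∀ j, ∃ c : K, vt (algebraMap K M (d.B.z j)) = algebraMap K M c)
    (hi : Integrable (fun p => d.T.X.D.levi Φ p (v p) * d.Bs p ^ (1 / d.m : ℝ)) d.T.X.D.μ)
    {i : Fin Fr.N} {O : ValuationSubring M} (hO : Fr.Fk (fun l => (d.τ l : M)) d.m i O)
    {a : M} (ha : a ∈ O) : vt a ∈ O := by
  have : CharZero K := charZero_of_injective_algebraMap (algebraMap ℂ K).injective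
  refine fk_of_sq Fr vt hO (fun j => ?_) (fun p => hΦ.2 p _) hi (fun l => .of_forall fun p => ?_) ha
  · obtain ⟨c, e⟩ := ht j
    exact e ▸ ((Fr.pr i).div hO.1).const c
  · have h1 := RD.vis_one (d.T.X.hol ⟨_, hf i l⟩) p (v p)
    rw [← (d.T.X.hol _).vd_fd, hv] at h1
    simp only [← Pt.ev_coe] at h1
    exact h1.trans (mul_le_mul_of_nonneg_left (vis i l p _) (by positivity))

/-- the weight `c log B` with `c = (m - 1) / m - 1` -/
theorem exp_chi {i0 : Fin d.r} (hu : IsUnit (d.τ i0)) (p : Pt d.T.X.O) :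
    Real.exp (-(((d.m - 1) / d.m - 1) * Real.log (∑ i, ‖p (d.τ i)‖ ^ 2))) =
      d.Bs p ^ (1 / d.m : ℝ) := by
  have m0 : (d.m : ℝ) ≠ 0 := by linarith [d.wt_m]
  rw [Real.rpow_def_of_pos (Bs_pos hu p)]
  congr 1
  unfold Bs
  field_simp
  ring

/-- FAKE in the shape of the output of `exists_field` -/
theorem fk_stable' {i0 : Fin d.r} (hu : IsUnit (d.τ i0)) (Fr : Frames2 d.T.dx)
    (hf : ∀ i l, Fr.f i l ∈ d.T.X.O) {Φ : Pt d.T.X.O → ℝ}
    (hΦ : d.T.X.D.Psh Φ) (vis : ∀ i l p ξ, d.T.X.D.levi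
      (fun p => Real.log (1 + ‖p.ev (Fr.f i l)‖ ^ 2)) p ξ ≤ d.T.X.D.levi Φ p ξ)
    {v : Pt d.T.X.O → δ ⊕ ν → ℂ} {vt : Derivation ℂ M M}
    (hv : ∀ (a : d.T.X.O) (p : Pt d.T.X.O), d.T.X.D.vd v (fun q => q a) p = p.ev (vt a))
    (ht : ∀ j, ∃ c : K, vt (algebraMap K M (d.B.z j)) = algebraMap K M c)
    (hi : d.T.X.D.L2 Φ
      (fun p => ((d.m - 1) / d.m - 1) * Real.log (∑ i, ‖p (d.τ i)‖ ^ 2)) v)
    {i : Fin Fr.N} {O : ValuationSubring M} (hO : Fr.Fk (fun l => (d.τ l : M)) d.m i O)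
    {a : M} (ha : a ∈ O) : vt a ∈ O :=
  fk_stable Fr hf hΦ vis hv ht (by simpa only [exp_chi hu] using hi.2) hO ha

end Dat

end Pool.Agent.Lib.MP_5c318e_ag
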