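import Pool.Agent.Lib.MP_5c318e_ag.Dv.Fake
import Pool.Agent.Lib.MP_5c318e_ag.Me.Der
import Pool.Agent.Lib.MP_5c318e_ag.RD.HAlg

/-! The field over a curve keeps the fake primes. -/

set_option autoImplicit false
set_option linter.unusedSectionVars false

namespace Pool.Agent.Lib.MP_5c318e_ag

open MeasureTheory Set Filter Topology

variable {ν K M : Type} [Fintype ν] [DecidableEq ν] [Field K] [Algebra ℂ K] [Field M] [Algebra ℂ M]
  [Algebra K M] [IsScalarTower ℂ K M]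

namespace Dat

theorem fk_stab (d : Dat Unit K ν M) {i0 : Fin d.r} (hu : IsUnit (d.τ i0)) (Fr : Frames2 d.T.dx)
    (hf : ∀ i l, Fr.f i l ∈ d.T.X.O) {Φ : Pt d.T.X.O → ℝ} (hΦ : d.T.X.D.Pos Φ)
    (vis : ∀ i l p ξ, d.T.X.D.levi (fun p => Real.log (1 + ‖p.ev (Fr.f i l)‖ ^ 2)) p ξ ≤
      d.T.X.D.levi Φ p ξ) {v : Derivation ℂ M M} (hv : ∀ j, v (d.T.X.z j) ∈ d.T.X.O)
    (vt : v (algebraMap K M (d.B.z ())) = 1)
    (l2 : ∀ i, d.T.X.D.L2 Φ d.ph fun p => p (d.τ i) • d.T.X.fld v p) {i : Fin Fr.N}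
    {O : ValuationSubring M} (hO : Fr.Fk (fun j => (d.τ j : M)) d.m i O) :
    ∀ φ ∈ O, v φ ∈ O := fun φ hφ => by
  refine fk_stable Fr hf hΦ.psh vis (v := d.T.X.fld v)
    (fun a p => Cht.vd_fld (fun j => p.reg_of_mem (hv j)) a) (fun _ => ⟨1, by rw [map_one, vt]⟩)
    ((integrable_finsetSum Finset.univ fun j _ => (l2 j).2).congr (.of_forall fun p => ?_)) hO hφ
  have m0 : (d.m : ℝ) ≠ 0 := by linarith [d.wt_m]
  have b0 := Bs_pos hu p
  simp only [RD.levi_smul hΦ.1, ← Finset.sum_mul]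
  rw [exp_ph hu, show (∑ i, ‖p (d.τ i)‖ ^ 2) = d.Bs p from rfl, mul_comm (d.Bs p), mul_assoc,
    show (1 / d.m : ℝ) = 1 + -((d.m - 1) / d.m) by field_simp; ring, Real.rpow_add b0,
    Real.rpow_one]

end Dat

end Pool.Agent.Lib.MP_5c318e_ag
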